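import Mathlib

/-!
# No linear bound for subspaces containing all minimal slice rank decompositions

For every `d ≥ 3` and every field `F` we construct order-`d` tensors of slice rank `k = 2 m - 1`
whose length-`k` slice rank decompositions use (in one coordinate) functions spanning a space of
dimension at least `m (m - 1) / 2`.  Hence no constant `K` makes `K * k` admissible.
-/

set_option autoImplicit false

open Finset

namespace Pool.Agent.Results.MP_626f3c_co.NoLinearBound

/-- A slice rank decomposition of length `k` of the order-`d` tensor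
`T : [n_1] × ... × [n_d] → F`: nonnegative integers `s j` with sum `k`, one-variable functions
`u j i` and functions `v j i` of the remaining coordinates, with
`T x = ∑ j, ∑ i, u j i (x j) * v j i (x with coordinate j deleted)`. -/
structure SliceDecomp {F : Type*} [Field F] {d : ℕ} {n : Fin d → ℕ}
    (T : (∀ j, Fin (n j)) → F) (k : ℕ) where
  /-- the number of terms of each kind -/
  s : Fin d → ℕ
  /-- the length is `k` -/
  sum_s : ∑ j, s j = k
  /-- the one-variable functions -/
  u : ∀ j, Fin (s j) → (Fin (n j) → F)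
  /-- the functions of the other coordinates -/
  v : ∀ j, Fin (s j) → ((∀ l : {l : Fin d // l ≠ j}, Fin (n l)) → F)
  /-- the decomposition -/
  eq_sum : ∀ x, T x = ∑ j, ∑ i, u j i (x j) * v j i (fun l => x l)

/-- `T` has slice rank `k`: `k` is the least length of a slice rank decomposition of `T`. -/
def HasSliceRank {F : Type*} [Field F] {d : ℕ} {n : Fin d → ℕ}
    (T : (∀ j, Fin (n j)) → F) (k : ℕ) : Prop :=
  IsLeast {m : ℕ | Nonempty (SliceDecomp T m)} k

section general

variable {F : Type*} [Field F] {d : ℕ} {n : Fin d → ℕ}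

/-- Pairing a decomposed tensor with functions annihilating all the `u j i` gives zero. -/
lemma pairing_eq_zero {T : (∀ j, Fin (n j)) → F} {k : ℕ} (D : SliceDecomp T k)
    (φ : ∀ j, Fin (n j) → F) (hφ : ∀ j i, ∑ a, D.u j i a * φ j a = 0) :
    ∑ x, T x * ∏ j, φ j (x j) = 0 := by
  classical
  have h1 : ∀ x, T x * ∏ j, φ j (x j) =
      ∑ j, ∑ i, (D.u j i (x j) * D.v j i (fun l => x l)) * ∏ j, φ j (x j) := by
    intro x
    rw [D.eq_sum x, Finset.sum_mul]
    refine Finset.sum_congr rfl fun j _ => ?_
    rw [Finset.sum_mul]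
  simp_rw [h1]
  rw [Finset.sum_comm]
  refine Finset.sum_eq_zero fun j _ => ?_
  rw [Finset.sum_comm]
  refine Finset.sum_eq_zero fun i _ => ?_
  have h2 : ∀ x : (∀ j, Fin (n j)),
      (D.u j i (x j) * D.v j i (fun l => x l)) * ∏ j, φ j (x j) =
      (fun p : Fin (n j) × (∀ l : {l : Fin d // l ≠ j}, Fin (n l)) =>
        (D.u j i p.1 * φ j p.1) * (D.v j i p.2 * ∏ l : {l : Fin d // l ≠ j}, φ l (p.2 l)))
        (Equiv.piSplitAt j (fun l => Fin (n l)) x) := by
    intro x
    rw [Fintype.prod_eq_mul_prod_subtype_ne (fun j => φ j (x j)) j]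
    simp only [Equiv.piSplitAt_apply]
    ring
  simp_rw [h2]
  rw [Equiv.sum_comp (Equiv.piSplitAt j (fun l => Fin (n l)))
    (fun p : Fin (n j) × (∀ l : {l : Fin d // l ≠ j}, Fin (n l)) =>
        (D.u j i p.1 * φ j p.1) * (D.v j i p.2 * ∏ l : {l : Fin d // l ≠ j}, φ l (p.2 l)))]
  rw [Fintype.sum_prod_type]
  simp_rw [← Finset.mul_sum]
  rw [← Finset.sum_mul, hφ j i, zero_mul]

/-- The positions of leading (largest index) nonzero entries of the elements of a subspace. -/
noncomputable def leads {N : ℕ} (W : Submodule F (Fin N → F)) : Finset (Fin N) := by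
  classical
  exact Finset.univ.filter fun i => ∃ w ∈ W, w i ≠ 0 ∧ ∀ i', i < i' → w i' = 0

lemma mem_leads {N : ℕ} {W : Submodule F (Fin N → F)} {i : Fin N} :
    i ∈ leads W ↔ ∃ w ∈ W, w i ≠ 0 ∧ ∀ i', i < i' → w i' = 0 := by
  classical
  simp [leads]

lemma finrank_le_card_leads {N : ℕ} (W : Submodule F (Fin N → F)) :
    Module.finrank F W ≤ (leads W).card := by
  classical
  let f : W →ₗ[F] (leads W → F) :=
    { toFun := fun w i => w.1 i.1
      map_add' := fun a b => rfl
      map_smul' := fun a b => rfl }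
  have hf : Function.Injective f := by
    rw [injective_iff_map_eq_zero]
    intro w hw
    by_contra hne
    have hex : ∃ i, w.1 i ≠ 0 := by
      by_contra hall
      push Not at hall
      exact hne (Subtype.ext (funext hall))
    obtain ⟨i0, hi0⟩ := hex
    have hne' : (Finset.univ.filter fun i => w.1 i ≠ 0).Nonempty :=
      ⟨i0, by simpa using hi0⟩
    obtain ⟨i, hi, hmax⟩ := Finset.exists_max_image _ id hne'
    simp only [Finset.mem_filter, Finset.mem_univ, true_and, id] at hi hmax
    have hil : i ∈ leads W := by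
      rw [mem_leads]
      refine ⟨w.1, w.2, hi, fun i' hi' => ?_⟩
      by_contra h0
      exact absurd (hmax i' h0) (not_le.mpr hi')
    have := congrFun hw ⟨i, hil⟩
    exact hi this
  have := LinearMap.finrank_le_finrank_of_injective hf
  simpa using this

/-- The annihilator (as a space of functions) of the `u j i`. -/
def annih {T : (∀ j, Fin (n j)) → F} {k : ℕ} (D : SliceDecomp T k) (j : Fin d) :
    Submodule F (Fin (n j) → F) :=
  LinearMap.ker
    ({ toFun := fun φ i => ∑ a, D.u j i a * φ a
       map_add' := by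
        intro φ ψ
        funext i
        simp [mul_add, Finset.sum_add_distrib]
       map_smul' := by
        intro c φ
        funext i
        simp only [Pi.smul_apply, smul_eq_mul, RingHom.id_apply, Finset.mul_sum]
        refine Finset.sum_congr rfl fun a _ => ?_
        ring } : (Fin (n j) → F) →ₗ[F] (Fin (D.s j) → F))

lemma mem_annih {T : (∀ j, Fin (n j)) → F} {k : ℕ} (D : SliceDecomp T k) (j : Fin d)
    (φ : Fin (n j) → F) : φ ∈ annih D j ↔ ∀ i, ∑ a, D.u j i a * φ a = 0 := by
  simp only [annih, LinearMap.mem_ker, LinearMap.coe_mk, AddHom.coe_mk, funext_iff,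
    Pi.zero_apply]

lemma finrank_annih {T : (∀ j, Fin (n j)) → F} {k : ℕ} (D : SliceDecomp T k) (j : Fin d) :
    n j ≤ Module.finrank F (annih D j) + D.s j := by
  have h := LinearMap.finrank_range_add_finrank_ker
    ({ toFun := fun φ i => ∑ a, D.u j i a * φ a
       map_add' := by
        intro φ ψ
        funext i
        simp [mul_add, Finset.sum_add_distrib]
       map_smul' := by
        intro c φ
        funext i
        simp only [Pi.smul_apply, smul_eq_mul, RingHom.id_apply, Finset.mul_sum]
        refine Finset.sum_congr rfl fun a _ => ?_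
        ring } : (Fin (n j) → F) →ₗ[F] (Fin (D.s j) → F))
  have h2 := Submodule.finrank_le (LinearMap.range
    ({ toFun := fun φ i => ∑ a, D.u j i a * φ a
       map_add' := by
        intro φ ψ
        funext i
        simp [mul_add, Finset.sum_add_distrib]
       map_smul' := by
        intro c φ
        funext i
        simp only [Pi.smul_apply, smul_eq_mul, RingHom.id_apply, Finset.mul_sum]
        refine Finset.sum_congr rfl fun a _ => ?_
        ring } : (Fin (n j) → F) →ₗ[F] (Fin (D.s j) → F)))
  simp only [Module.finrank_fintype_fun_eq_card, Fintype.card_fin] at h h2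
  unfold annih
  omega

/-- The `0`-`1` tensor of a family of points (hyperedges) `c E`. -/
def edgeTensor (F : Type*) [Field F] {d : ℕ} {n : Fin d → ℕ} {𝓔 : Type*} [Fintype 𝓔]
    (c : 𝓔 → ∀ j, Fin (n j)) : (∀ j, Fin (n j)) → F :=
  fun x => ∑ E, ∏ j, if x j = c E j then (1 : F) else 0

lemma pairing_edgeTensor {𝓔 : Type*} [Fintype 𝓔] (c : 𝓔 → ∀ j, Fin (n j))
    (φ : ∀ j, Fin (n j) → F) :
    ∑ x, edgeTensor F c x * ∏ j, φ j (x j) = ∑ E, ∏ j, φ j (c E j) := by
  classical
  unfold edgeTensor
  simp_rw [Finset.sum_mul]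
  rw [Finset.sum_comm]
  refine Finset.sum_congr rfl fun E _ => ?_
  simp_rw [← Finset.prod_mul_distrib]
  have := (Finset.prod_univ_sum (fun j => (Finset.univ : Finset (Fin (n j))))
    (fun j a => (if a = c E j then (1 : F) else 0) * φ j a))
  rw [Fintype.piFinset_univ] at this
  rw [← this]
  refine Finset.prod_congr rfl fun j _ => ?_
  simp

/-- Lower bound: a decomposition of the tensor of an antichain of edges yields a vertex cover. -/
lemma cover_of_decomp {𝓔 : Type*} [Fintype 𝓔] (c : 𝓔 → ∀ j, Fin (n j))
    (hc : ∀ E E', (∀ j, c E j ≤ c E' j) → E = E') {k : ℕ}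
    (D : SliceDecomp (edgeTensor F c) k) :
    ∃ C : ∀ j, Finset (Fin (n j)), ∑ j, (C j).card ≤ k ∧ ∀ E, ∃ j, c E j ∈ C j := by
  classical
  refine ⟨fun j => (leads (annih D j))ᶜ, ?_, ?_⟩
  · refine le_trans (Finset.sum_le_sum fun j _ => ?_) (le_of_eq D.sum_s)
    have h1 := finrank_le_card_leads (annih D j)
    have h2 := finrank_annih D j
    rw [Finset.card_compl, Fintype.card_fin]
    omega
  · intro E
    by_contra hno
    push Not at hno
    have hlead : ∀ j, ∃ w ∈ annih D j, w (c E j) ≠ 0 ∧ ∀ i', c E j < i' → w i' = 0 := by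
      intro j
      have := hno j
      simp only [Finset.mem_compl, not_not] at this
      exact mem_leads.mp this
    choose φ hφW hφ1 hφ2 using hlead
    have h0 := pairing_eq_zero D φ (fun j i => (mem_annih D j (φ j)).mp (hφW j) i)
    rw [pairing_edgeTensor] at h0
    rw [Finset.sum_eq_single E] at h0
    · rw [Finset.prod_eq_zero_iff] at h0
      obtain ⟨j, _, hj⟩ := h0
      exact hφ1 j hj
    · intro E' _ hE'
      by_contra hprod
      apply hE'
      apply hc
      intro j
      by_contra hlt
      push Not at hlt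
      apply hprod
      exact Finset.prod_eq_zero (Finset.mem_univ j) (hφ2 j _ hlt)
    · intro h
      exact absurd (Finset.mem_univ E) h

/-- Upper bound: a vertex cover yields a decomposition. -/
lemma decomp_of_cover {𝓔 : Type*} [Fintype 𝓔] (c : 𝓔 → ∀ j, Fin (n j))
    (C : ∀ j, Finset (Fin (n j))) (hC : ∀ E, ∃ j, c E j ∈ C j) :
    ∃ D : SliceDecomp (edgeTensor F c) (∑ j, (C j).card),
      ∀ j, ∀ a ∈ C j, (Pi.single a 1 : Fin (n j) → F) ∈ Set.range (D.u j) := by
  classical
  choose g hg using hC
  refine ⟨{ s := fun j => (C j).card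
            sum_s := rfl
            u := fun j i => Pi.single ((C j).equivFin.symm i : Fin (n j)) 1
            v := fun j i y => ∑ E, if g E = j ∧ c E j = ((C j).equivFin.symm i : Fin (n j)) then
              ∏ l : {l : Fin d // l ≠ j}, (if y l = c E l then (1 : F) else 0) else 0
            eq_sum := ?_ }, ?_⟩
  · intro x
    have h1 : ∀ j, ∑ i : Fin (C j).card,
        (Pi.single ((C j).equivFin.symm i : Fin (n j)) (1 : F) : Fin (n j) → F) (x j) *
        (∑ E, if g E = j ∧ c E j = ((C j).equivFin.symm i : Fin (n j)) then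
              ∏ l : {l : Fin d // l ≠ j}, (if x l = c E l then (1 : F) else 0) else 0)
        = ∑ E, if g E = j then ∏ l, (if x l = c E l then (1 : F) else 0) else 0 := by
      intro j
      simp_rw [Finset.mul_sum]
      rw [Finset.sum_comm]
      refine Finset.sum_congr rfl fun E _ => ?_
      by_cases hE : g E = j
      · subst hE
        simp only [true_and, if_true]
        rw [Finset.sum_eq_single ((C (g E)).equivFin ⟨c E (g E), hg E⟩)]
        · simp only [Equiv.symm_apply_apply, if_true]
          rw [Fintype.prod_eq_mul_prod_subtype_ne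
            (fun l => if x l = c E l then (1 : F) else 0) (g E)]
          simp [Pi.single_apply]
        · intro i _ hi
          have : c E (g E) ≠ ((C (g E)).equivFin.symm i : Fin (n (g E))) := by
            intro h
            apply hi
            apply (C (g E)).equivFin.symm.injective
            apply Subtype.ext
            simp [h]
          simp [this]
        · intro h
          exact absurd (Finset.mem_univ _) h
      · simp [hE]
    simp only [edgeTensor]
    rw [Finset.sum_congr rfl (fun j _ => h1 j), Finset.sum_comm]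
    refine Finset.sum_congr rfl fun E _ => ?_
    simp
  · intro j a ha
    refine ⟨(C j).equivFin ⟨a, ha⟩, ?_⟩
    simp

end general

section construction

/-- Labels of vertices: `inl i` are the core vertices, `inr (t, i, j)` the private vertices. -/
abbrev Vtx (m : ℕ) : Type := Fin m ⊕ (Fin 3 × (Fin m × Fin m))

/-- An explicit enumeration of the labels: core vertices come first (in increasing order), then
the private vertices, decreasingly in `i` and `j`. -/
def code (m : ℕ) : Vtx m ≃ Fin (m + 3 * (m * m)) :=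
  (Equiv.sumCongr (Equiv.refl (Fin m))
    ((Equiv.prodCongr (Equiv.refl (Fin 3))
      ((Equiv.prodCongr Fin.revPerm Fin.revPerm).trans finProdFinEquiv)).trans
        finProdFinEquiv)).trans finSumFinEquiv

lemma code_inl_val (m : ℕ) (i : Fin m) : (code m (Sum.inl i)).val = i.val := by
  simp [code]

lemma code_inr_val (m : ℕ) (t : Fin 3) (i j : Fin m) :
    (code m (Sum.inr (t, i, j))).val =
      m + (((m - (j.val + 1)) + m * (m - (i.val + 1))) + m * m * t.val) := by
  simp [code]

/-- The edges: pairs `i < j`, and two further edges for each `i`. -/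
abbrev Edge (m : ℕ) : Type := {p : Fin m × Fin m // p.1 < p.2} ⊕ (Fin m ⊕ Fin m)

/-- The `l`-th vertex of an edge. -/
def vtx (m d : ℕ) : Edge m → Fin d → Vtx m
  | Sum.inl p, l => if l.val = 0 then Sum.inl p.1.1 else if l.val = 1 then Sum.inl p.1.2
      else Sum.inr (0, p.1.1, p.1.2)
  | Sum.inr (Sum.inl i), l => if l.val = 0 ∨ l.val = 2 then Sum.inl i else Sum.inr (1, i, i)
  | Sum.inr (Sum.inr i), l => if l.val = 1 ∨ l.val = 2 then Sum.inl i else Sum.inr (2, i, i)

/-- The edges as points of `[N]^d`. -/
def edge (m d : ℕ) (E : Edge m) (l : Fin d) : Fin (m + 3 * (m * m)) := code m (vtx m d E l)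

/-- The arithmetic behind the antichain property. -/
lemma arith (m i j i' j' r : ℕ) (hi : i < m) (hi' : i' < m) (hj' : j' < m)
    (h0 : i ≤ i') (h1 : j ≤ j')
    (h2 : m + (((m - (j + 1)) + m * (m - (i + 1))) + r) ≤
      m + (((m - (j' + 1)) + m * (m - (i' + 1))) + r)) : i = i' ∧ j = j' := by
  have key : i = i' := by
    by_contra hne
    have hlt : i < i' := lt_of_le_of_ne h0 hne
    have h3 : m - (i' + 1) + 1 ≤ m - (i + 1) := by omega
    have h4 := Nat.mul_le_mul_left m h3
    rw [Nat.mul_add, Nat.mul_one] at h4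
    omega
  subst key
  refine ⟨rfl, ?_⟩
  omega

lemma edge_antichain (m d : ℕ) (E E' : Edge m)
    (h : ∀ l : Fin (d + 3), edge m (d + 3) E l ≤ edge m (d + 3) E' l) : E = E' := by
  have h0 := h 0
  have h1 := h 1
  have h2 := h 2
  rw [Fin.le_def] at h0 h1 h2
  have v0 : ((0 : Fin (d + 3)) : ℕ) = 0 := rfl
  have v1 : ((1 : Fin (d + 3)) : ℕ) = 1 := rfl
  have v2 : ((2 : Fin (d + 3)) : ℕ) = 2 := rfl
  have n10 : ¬ ((1 : ℕ) = 0) := by norm_num
  have n20 : ¬ ((2 : ℕ) = 0) := by norm_num
  have n21 : ¬ ((2 : ℕ) = 1) := by norm_num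
  have n12 : ¬ ((1 : ℕ) = 2) := by norm_num
  have n02 : ¬ ((0 : ℕ) = 2) := by norm_num
  have n01 : ¬ ((0 : ℕ) = 1) := by norm_num
  rcases E with ⟨⟨i, j⟩, hij⟩ | i | i <;> rcases E' with ⟨⟨i', j'⟩, hij'⟩ | i' | i' <;>
    simp only [edge, vtx, v0, v1, v2, n10, n20, n21, n12, n02, n01, if_true, if_false, or_true,
      true_or, or_self] at h0 h1 h2
  · -- `inl`, `inl`
    rw [code_inl_val, code_inl_val] at h0 h1
    rw [code_inr_val, code_inr_val] at h2
    obtain ⟨ha, hb⟩ := arith m i j i' j' _ i.2 i'.2 j'.2 h0 h1 h2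
    have ha' : i = i' := Fin.ext ha
    have hb' : j = j' := Fin.ext hb
    subst ha' hb'
    rfl
  · exfalso
    rw [code_inr_val, code_inl_val] at h2
    have := i'.2
    omega
  · exfalso
    rw [code_inr_val, code_inl_val] at h2
    have := i'.2
    omega
  · exfalso
    rw [code_inr_val, code_inl_val] at h1
    have := j'.2
    omega
  · rw [code_inl_val, code_inl_val] at h0 
    rw [code_inr_val, code_inr_val] at h1
    obtain ⟨ha, hb⟩ := arith m i i i' i' _ i.2 i'.2 i'.2 h0 h0 h1
    have ha' : i = i' := Fin.ext ha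
    subst ha'
    rfl
  · exfalso
    rw [code_inr_val, code_inl_val] at h1
    have := i'.2
    omega
  · exfalso
    rw [code_inr_val, code_inl_val] at h0
    have := i'.2
    omega
  · exfalso
    rw [code_inr_val, code_inl_val] at h0
    have := i'.2
    omega
  · rw [code_inl_val, code_inl_val] at h1 
    rw [code_inr_val, code_inr_val] at h0
    obtain ⟨ha, hb⟩ := arith m i i i' i' _ i.2 i'.2 i'.2 h1 h1 h0
    have ha' : i = i' := Fin.ext ha
    subst ha'
    rfl

/-- The group to which a label belongs. -/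
def label (m : ℕ) : Vtx m → Fin m ⊕ (Fin m × Fin m)
  | Sum.inl i => Sum.inl i
  | Sum.inr (t, i, j) => if t = 0 then Sum.inr (i, j) else Sum.inl i

/-- Every vertex cover of the edges has size at least `2 m - 1`. -/
lemma le_card_cover (m d : ℕ) (C : Fin (d + 3) → Finset (Fin (m + 3 * (m * m))))
    (hC : ∀ E, ∃ l, edge m (d + 3) E l ∈ C l) : 2 * m ≤ ∑ l, (C l).card + 1 := by
  classical
  set S : Finset (Σ _ : Fin (d + 3), Fin (m + 3 * (m * m))) := Finset.univ.sigma C with hS
  have hScard : S.card = ∑ l, (C l).card := by rw [hS, Finset.card_sigma]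
  rw [← hScard]
  let g : (Σ _ : Fin (d + 3), Fin (m + 3 * (m * m))) → Fin m ⊕ (Fin m × Fin m) :=
    fun p => label m ((code m).symm p.2)
  have hfib : S.card = ∑ b : Fin m ⊕ (Fin m × Fin m), (S.filter fun a => g a = b).card :=
    Finset.card_eq_sum_card_fiberwise (fun x _ => Finset.mem_coe.mpr (Finset.mem_univ _))
  rw [Fintype.sum_sum_type] at hfib
  -- vertices covering the edges `f i` and `g i`
  have hf : ∀ i : Fin m, ∃ l : Fin (d + 3), (⟨l, edge m (d + 3) (Sum.inr (Sum.inl i)) l⟩ :
      Σ _ : Fin (d + 3), Fin (m + 3 * (m * m))) ∈ S.filter fun a => g a = Sum.inl i := by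
    intro i
    obtain ⟨l, hl⟩ := hC (Sum.inr (Sum.inl i))
    refine ⟨l, ?_⟩
    rw [Finset.mem_filter]
    refine ⟨by rw [hS, Finset.mem_sigma]; exact ⟨Finset.mem_univ _, hl⟩, ?_⟩
    simp only [g, edge, Equiv.symm_apply_apply, vtx]
    split_ifs <;> simp [label]
  have hg : ∀ i : Fin m, ∃ l : Fin (d + 3), (⟨l, edge m (d + 3) (Sum.inr (Sum.inr i)) l⟩ :
      Σ _ : Fin (d + 3), Fin (m + 3 * (m * m))) ∈ S.filter fun a => g a = Sum.inl i := by
    intro i
    obtain ⟨l, hl⟩ := hC (Sum.inr (Sum.inr i))
    refine ⟨l, ?_⟩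
    rw [Finset.mem_filter]
    refine ⟨by rw [hS, Finset.mem_sigma]; exact ⟨Finset.mem_univ _, hl⟩, ?_⟩
    simp only [g, edge, Equiv.symm_apply_apply, vtx]
    split_ifs <;> simp [label]
  have hpos : ∀ i : Fin m, 1 ≤ (S.filter fun a => g a = Sum.inl i).card := by
    intro i
    obtain ⟨l, hl⟩ := hf i
    exact Finset.card_pos.mpr ⟨_, hl⟩
  -- if the group of `i` has one element then it does not contain `a_i` or `b_i`
  have hone : ∀ i : Fin m, (S.filter fun a => g a = Sum.inl i).card ≤ 1 →
      ∀ l : Fin (d + 3), l.val = 0 ∨ l.val = 1 → code m (Sum.inl i) ∉ C l := by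
    intro i hi l hl hmem
    rw [Finset.card_le_one] at hi
    have hmem' : (⟨l, code m (Sum.inl i)⟩ :
      Σ _ : Fin (d + 3), Fin (m + 3 * (m * m))) ∈ S.filter fun a => g a = Sum.inl i := by
      rw [Finset.mem_filter]
      refine ⟨by rw [hS, Finset.mem_sigma]; exact ⟨Finset.mem_univ _, hmem⟩, ?_⟩
      simp [g, label]
    obtain ⟨lf, hlf⟩ := hf i
    obtain ⟨lg, hlg⟩ := hg i
    have e1 := hi _ hmem' _ hlf
    have e2 := hi _ hmem' _ hlg
    simp only [Sigma.mk.injEq, heq_eq_eq] at e1 e2
    obtain ⟨rfl, e1⟩ := e1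
    obtain ⟨rfl, e2⟩ := e2
    simp only [edge, EmbeddingLike.apply_eq_iff_eq, vtx] at e1 e2
    rcases hl with hl | hl
    · simp [hl] at e2
    · simp [hl] at e1
  -- set of indices whose group has one element
  set M : Finset (Fin m) := Finset.univ.filter
    fun i => (S.filter fun a => g a = Sum.inl i).card ≤ 1 with hM
  have hsum1 : 2 * m ≤ ∑ i : Fin m, (S.filter fun a => g a = Sum.inl i).card + M.card := by
    have : ∑ i : Fin m, (2 : ℕ) ≤ ∑ i : Fin m,
        ((S.filter fun a => g a = Sum.inl i).card + if i ∈ M then 1 else 0) := by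
      refine Finset.sum_le_sum fun i _ => ?_
      have h1 := hpos i
      by_cases hi : i ∈ M
      · simp only [hi, if_true]; omega
      · simp only [hi, if_false]
        simp only [hM, Finset.mem_filter, Finset.mem_univ, true_and, not_le] at hi
        omega
    rw [Finset.sum_add_distrib] at this
    simp only [Finset.sum_const, Finset.card_univ, Fintype.card_fin, smul_eq_mul,
      Finset.sum_ite_mem, Finset.univ_inter, mul_one] at this
    omega
  have hsum2 : M.card ≤ ∑ p : Fin m × Fin m, (S.filter fun a => g a = Sum.inr p).card + 1 := by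
    by_cases hMe : M.Nonempty
    · set i0 := M.min' hMe with hi0
      have hi0M : i0 ∈ M := Finset.min'_mem _ _
      have h1 : (M.erase i0).card + 1 = M.card := Finset.card_erase_add_one hi0M
      have h2 : (M.erase i0).card ≤ ∑ j ∈ M.erase i0,
          (S.filter fun a => g a = Sum.inr (i0, j)).card := by
        rw [Finset.card_eq_sum_ones]
        refine Finset.sum_le_sum fun j hj => ?_
        rw [Finset.mem_erase] at hj
        have hlt : i0 < j := lt_of_le_of_ne (Finset.min'_le _ _ hj.2) (Ne.symm hj.1)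
        obtain ⟨l, hl⟩ := hC (Sum.inl ⟨(i0, j), hlt⟩)
        have hci : (S.filter fun a => g a = Sum.inl i0).card ≤ 1 := by
          simpa [hM] using hi0M
        have hcj : (S.filter fun a => g a = Sum.inl j).card ≤ 1 := by
          simpa [hM] using hj.2
        by_cases hl0 : l.val = 0
        · exfalso
          simp only [edge, vtx, hl0, if_true] at hl
          exact hone i0 hci l (Or.inl hl0) hl
        · by_cases hl1 : l.val = 1
          · exfalso
            simp only [edge, vtx, hl1] at hl
            exact hone j hcj l (Or.inr hl1) hl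
          · refine Finset.card_pos.mpr ⟨⟨l, edge m (d + 3) (Sum.inl ⟨(i0, j), hlt⟩) l⟩, ?_⟩
            rw [Finset.mem_filter]
            refine ⟨by rw [hS, Finset.mem_sigma]; exact ⟨Finset.mem_univ _, hl⟩, ?_⟩
            simp only [g, edge, Equiv.symm_apply_apply, vtx, hl0, hl1, if_false, label, if_true]
      have h3 : ∑ j ∈ M.erase i0, (S.filter fun a => g a = Sum.inr (i0, j)).card ≤
          ∑ j : Fin m, (S.filter fun a => g a = Sum.inr (i0, j)).card :=
        Finset.sum_le_sum_of_subset (Finset.subset_univ _)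
      have h4 : ∑ j : Fin m, (S.filter fun a => g a = Sum.inr (i0, j)).card ≤
          ∑ p : Fin m × Fin m, (S.filter fun a => g a = Sum.inr p).card := by
        rw [Fintype.sum_prod_type]
        exact Finset.single_le_sum
          (f := fun i => ∑ j : Fin m, (S.filter fun a => g a = Sum.inr (i, j)).card)
          (fun i _ => Nat.zero_le _) (Finset.mem_univ i0)
      omega
    · rw [Finset.not_nonempty_iff_eq_empty] at hMe
      simp [hMe]
  omega

/-- The cover which contains the private vertex of the edge `(i, j)`. -/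
def cov (m d : ℕ) (i j : Fin m) (l : Fin d) : Finset (Fin (m + 3 * (m * m))) :=
  if l.val = 0 ∨ l.val = 1 then
    ((Finset.univ.erase i).erase j).map ⟨fun p => code m (Sum.inl p), fun a b h => by simpa using h⟩
  else if l.val = 2 then {code m (Sum.inl i), code m (Sum.inl j), code m (Sum.inr (0, i, j))}
  else ∅

lemma cov_covers (m d : ℕ) (i j : Fin m) (hij : i < j) (E : Edge m) :
    ∃ l, edge m (d + 3) E l ∈ cov m (d + 3) i j l := by
  have v2 : ((2 : Fin (d + 3)) : ℕ) = 2 := rfl
  rcases E with ⟨⟨p, q⟩, hpq⟩ | p | p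
  · by_cases hp : p ≠ i ∧ p ≠ j
    · refine ⟨0, ?_⟩
      simp [edge, vtx, cov, hp.1, hp.2]
    · by_cases hq : q ≠ i ∧ q ≠ j
      · refine ⟨1, ?_⟩
        simp [edge, vtx, cov, hq.1, hq.2]
      · have hpi : p = i ∧ q = j := by
          simp only at hpq
          have h1 : p = i ∨ p = j := by
            by_contra h
            push Not at h
            exact hp h
          have h2 : q = i ∨ q = j := by
            by_contra h
            push Not at h
            exact hq h
          rcases h1 with h1 | h1 <;> rcases h2 with h2 | h2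
          · subst h1; subst h2; exact absurd hpq (lt_irrefl _)
          · exact ⟨h1, h2⟩
          · subst h1; subst h2; exact absurd (lt_trans hpq hij) (lt_irrefl _)
          · subst h1; subst h2; exact absurd hpq (lt_irrefl _)
        refine ⟨2, ?_⟩
        obtain ⟨rfl, rfl⟩ := hpi
        simp only [edge, vtx, cov, v2]
        simp
  · by_cases hp : p ≠ i ∧ p ≠ j
    · refine ⟨0, ?_⟩
      simp [edge, vtx, cov, hp.1, hp.2]
    · refine ⟨2, ?_⟩
      have h1 : p = i ∨ p = j := by
        by_contra h
        push Not at h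
        exact hp h
      simp only [edge, vtx, cov, v2]
      rcases h1 with h1 | h1 <;> simp [h1]
  · by_cases hp : p ≠ i ∧ p ≠ j
    · refine ⟨1, ?_⟩
      simp [edge, vtx, cov, hp.1, hp.2]
    · refine ⟨2, ?_⟩
      have h1 : p = i ∨ p = j := by
        by_contra h
        push Not at h
        exact hp h
      simp only [edge, vtx, cov, v2]
      rcases h1 with h1 | h1 <;> simp [h1]

lemma card_cov (m d : ℕ) (i j : Fin m) (hij : i < j) :
    ∑ l, (cov m (d + 3) i j l).card = 2 * m - 1 := by
  have v2 : ((2 : Fin (d + 3)) : ℕ) = 2 := rfl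
  have hm : 2 ≤ m := by
    have h1 := i.2
    have h2 := j.2
    have h3 : i.val < j.val := hij
    omega
  rw [Fin.sum_univ_succ, Fin.sum_univ_succ, Fin.sum_univ_succ]
  have h0 : (cov m (d + 3) i j 0).card = m - 2 := by
    simp only [cov, Fin.val_zero, true_or, if_true, Finset.card_map]
    rw [Finset.card_erase_of_mem, Finset.card_erase_of_mem (Finset.mem_univ _), Finset.card_univ,
      Fintype.card_fin]
    · omega
    · rw [Finset.mem_erase]; exact ⟨ne_of_gt hij, Finset.mem_univ _⟩
  have h1 : (cov m (d + 3) i j (Fin.succ 0)).card = m - 2 := by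
    simp only [cov, Fin.val_succ, Fin.val_zero, zero_add, or_true, if_true, Finset.card_map]
    rw [Finset.card_erase_of_mem, Finset.card_erase_of_mem (Finset.mem_univ _), Finset.card_univ,
      Fintype.card_fin]
    · omega
    · rw [Finset.mem_erase]; exact ⟨ne_of_gt hij, Finset.mem_univ _⟩
  have h2 : (cov m (d + 3) i j (Fin.succ (Fin.succ 0))).card = 3 := by
    simp only [cov, Fin.val_succ, Fin.val_zero, zero_add]
    norm_num
    rw [Finset.card_eq_three]
    refine ⟨_, _, _, ?_, ?_, ?_, rfl⟩
    · simpa using ne_of_lt hij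
    · simp
    · simp
  have h3 : ∑ l : Fin d, (cov m (d + 3) i j (Fin.succ (Fin.succ (Fin.succ l)))).card = 0 := by
    refine Finset.sum_eq_zero fun l _ => ?_
    simp [cov, Fin.val_succ]
  rw [h0, h1, h2, h3]
  omega

end construction

/-- **Negative answer to Q1, for every order `d ≥ 3` and over every field.**  For every real `K`
there are `k ≥ 1` and an order-`d` tensor `T` over `F` of slice rank `k` such that no subspaces
`A_1, ..., A_d`, each of dimension at most `K * k`, contain the spans of the one-variable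
functions of all length-`k` slice rank decompositions of `T`. -/
theorem result (d : ℕ) (hd : 3 ≤ d) (F : Type*) [Field F] (K : ℝ) :
    ∃ (k : ℕ) (n : Fin d → ℕ) (T : (∀ j, Fin (n j)) → F),
      1 ≤ k ∧ (∀ j, 1 ≤ n j) ∧ HasSliceRank T k ∧
      ¬ ∃ A : ∀ j, Submodule F (Fin (n j) → F),
        (∀ j, (Module.finrank F (A j) : ℝ) ≤ K * k) ∧
        ∀ (D : SliceDecomp T k) (j : Fin d), Submodule.span F (Set.range (D.u j)) ≤ A j := by
  classical
  obtain ⟨d, rfl⟩ : ∃ d', d = d' + 3 := ⟨d - 3, by omega⟩
  -- parameters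
  obtain ⟨h, hh1, hhK⟩ : ∃ h : ℕ, 1 ≤ h ∧ 4 * |K| < h := by
    obtain ⟨h, hh⟩ := exists_nat_gt (max (4 * |K|) 1)
    refine ⟨h, ?_, lt_of_le_of_lt (le_max_left _ _) hh⟩
    have : (1 : ℝ) < h := lt_of_le_of_lt (le_max_right _ _) hh
    exact_mod_cast this.le
  set m := h + h with hm
  have hdec : ∀ i j : Fin m, i < j → ∃ D : SliceDecomp (edgeTensor F (edge m (d + 3)))
      (2 * m - 1), ∀ l, ∀ a ∈ cov m (d + 3) i j l,
        (Pi.single a 1 : Fin (m + 3 * (m * m)) → F) ∈ Set.range (D.u l) := by
    intro i j hij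
    have := decomp_of_cover (F := F) (edge m (d + 3)) (cov m (d + 3) i j)
      (cov_covers m d i j hij)
    rw [card_cov m d i j hij] at this
    exact this
  refine ⟨2 * m - 1, fun _ => m + 3 * (m * m), edgeTensor F (edge m (d + 3)), ?_, ?_, ?_, ?_⟩
  · omega
  · intro j; dsimp only; omega
  · constructor
    · obtain ⟨D, _⟩ := hdec ⟨0, by omega⟩ ⟨1, by omega⟩ (by simp [Fin.lt_def])
      exact ⟨D⟩
    · rintro k ⟨D⟩
      obtain ⟨C, hCk, hC⟩ := cover_of_decomp (edge m (d + 3)) (edge_antichain m d) D
      have := le_card_cover m d C hC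
      omega
  · rintro ⟨A, hA, hAD⟩
    -- `A 2` contains `h * h` independent vectors
    let b : Fin h × Fin h → (Fin (m + 3 * (m * m)) → F) := fun p =>
      Pi.single (code m (Sum.inr (0, Fin.castAdd h p.1, Fin.natAdd h p.2))) 1
    have hb : LinearIndependent F b := by
      have h1 := (Pi.basisFun F (Fin (m + 3 * (m * m)))).linearIndependent
      have h2 := h1.comp (fun p : Fin h × Fin h =>
        code m (Sum.inr (0, Fin.castAdd h p.1, Fin.natAdd h p.2))) (by
          rintro ⟨p, q⟩ ⟨p', q'⟩ heq
          simp only [EmbeddingLike.apply_eq_iff_eq, Sum.inr.injEq, Prod.mk.injEq,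
            true_and] at heq
          have e1 : p = p' := Fin.ext (by simpa [Fin.ext_iff] using heq.1)
          have e2 : q = q' := Fin.ext (by simpa [Fin.ext_iff] using heq.2)
          rw [e1, e2])
      have h3 : b = (⇑(Pi.basisFun F (Fin (m + 3 * (m * m)))) ∘ fun p : Fin h × Fin h =>
        code m (Sum.inr (0, Fin.castAdd h p.1, Fin.natAdd h p.2))) := by
        funext p
        simp [b]
      rw [h3]
      exact h2
    have hbA : ∀ p, b p ∈ A 2 := by
      intro p
      obtain ⟨D, hD⟩ := hdec (Fin.castAdd h p.1) (Fin.natAdd h p.2) (by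
        rw [Fin.lt_def, Fin.val_castAdd, Fin.val_natAdd]
        have := p.1.2
        omega)
      have h1 := hD 2 (code m (Sum.inr (0, Fin.castAdd h p.1, Fin.natAdd h p.2))) (by
        have v2 : ((2 : Fin (d + 3)) : ℕ) = 2 := rfl
        simp only [cov, v2]
        simp)
      exact hAD D 2 (Submodule.subset_span h1)
    have hle : h * h ≤ Module.finrank F (A 2) := by
      have h1 : Submodule.span F (Set.range b) ≤ A 2 := by
        rw [Submodule.span_le]
        rintro _ ⟨p, rfl⟩
        exact hbA p
      have h2 := Submodule.finrank_mono h1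
      rw [finrank_span_eq_card hb] at h2
      simpa using h2
    have hlt := hA 2
    have hle' : (h : ℝ) * h ≤ Module.finrank F (A 2) := by exact_mod_cast hle
    have hk : ((2 * m - 1 : ℕ) : ℝ) ≤ 4 * h := by
      have : (2 * m - 1 : ℕ) ≤ 4 * h := by omega
      exact_mod_cast this
    have hk0 : (0 : ℝ) ≤ ((2 * m - 1 : ℕ) : ℝ) := Nat.cast_nonneg _
    have hh0 : (0 : ℝ) < h := by exact_mod_cast hh1
    have h3 : K * ((2 * m - 1 : ℕ) : ℝ) ≤ |K| * (4 * h) := by
      calc K * ((2 * m - 1 : ℕ) : ℝ) ≤ |K| * ((2 * m - 1 : ℕ) : ℝ) :=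
            mul_le_mul_of_nonneg_right (le_abs_self K) hk0
        _ ≤ |K| * (4 * h) := mul_le_mul_of_nonneg_left hk (abs_nonneg K)
    have h4 : |K| * (4 * h) < h * h := by
      have := mul_lt_mul_of_pos_right hhK hh0
      linarith
    linarith

end Pool.Agent.Results.MP_626f3c_co.NoLinearBound
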